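import Pool.Agent.TH293.AP.Pow

set_option autoImplicit false

/-!
# Additive pairs in groups of positive rational numbers of rank two
-/

namespace Pool.Agent.TH293.AP

/-- the possible signs of the valuations of `x` and `1 - x` -/
def Pat (e e' : ℤ) : Prop := (e = 0 ∧ e' = 0) ∨ (0 < e ∧ e' = 0) ∨ (e = 0 ∧ 0 < e') ∨ (e < 0 ∧ e' = e)

lemma Pat.of_mul {m c e e' V V' : ℤ} (hm : 0 < m) (hc : 0 < c) (h : Pat V V') (h1 : m * V = c * e)
    (h2 : m * V' = c * e') : Pat e e' := by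
  rcases h with ⟨h3, h4⟩ | ⟨h3, h4⟩ | ⟨h3, h4⟩ | ⟨h3, h4⟩
  · subst h3; subst h4
    rw [mul_zero] at h1 h2
    refine Or.inl ⟨?_, ?_⟩
    · exact (mul_eq_zero.1 h1.symm).resolve_left hc.ne'
    · exact (mul_eq_zero.1 h2.symm).resolve_left hc.ne'
  · subst h4
    rw [mul_zero] at h2
    refine Or.inr (Or.inl ⟨?_, (mul_eq_zero.1 h2.symm).resolve_left hc.ne'⟩)
    have : 0 < c * e := h1 ▸ mul_pos hm h3
    exact pos_of_mul_pos_of_pos_left' this hc
  · subst h3
    rw [mul_zero] at h1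
    refine Or.inr (Or.inr (Or.inl ⟨(mul_eq_zero.1 h1.symm).resolve_left hc.ne', ?_⟩))
    have : 0 < c * e' := h2 ▸ mul_pos hm h4
    exact pos_of_mul_pos_of_pos_left' this hc
  · subst h4
    refine Or.inr (Or.inr (Or.inr ⟨?_, ?_⟩))
    · have : 0 < c * (-e) := by nlinarith
      have := pos_of_mul_pos_of_pos_left' this hc
      omega
    · exact mul_left_cancel₀ hc.ne' (by rw [← h1, ← h2])
where
  pos_of_mul_pos_of_pos_left' {a b : ℤ} (h : 0 < a * b) (ha : 0 < a) : 0 < b := by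
    by_contra hb
    have := mul_nonpos_of_nonneg_of_nonpos ha.le (not_lt.1 hb)
    omega

/-- reduced representation -/
lemma rep {x : ℚ} (h0 : 0 < x) (h1 : x < 1 / 2) : ∃ a b c : ℕ, a + b = c ∧ 1 ≤ a ∧ a < b ∧
    a.Coprime b ∧ a.Coprime c ∧ b.Coprime c ∧ x = a / c ∧ 1 - x = b / c := by
  have hnum : 0 < x.num := Rat.num_pos.2 h0
  obtain ⟨a, ha⟩ := Int.eq_ofNat_of_zero_le hnum.le
  have hden : 0 < x.den := x.den_pos
  have hx : x = a / x.den := by
    conv_lhs => rw [← Rat.num_div_den x, ha]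
    simp
  have hcop : a.Coprime x.den := by
    have := x.reduced
    rw [ha] at this
    simpa using this
  have hlt : 2 * a < x.den := by
    have h2 : (a : ℚ) / x.den < 1 / 2 := hx ▸ h1
    rw [div_lt_div_iff₀ (by positivity) (by norm_num)] at h2
    have : (2 * a : ℚ) < x.den := by linarith
    exact_mod_cast this
  refine ⟨a, x.den - a, x.den, by omega, by omega, by omega, ?_, hcop, ?_, hx, ?_⟩
  · have : a.Coprime (x.den - a) := (Nat.coprime_sub_self_right (by omega)).2 hcop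
    exact this
  · have h2 : (x.den - a).Coprime (x.den - (x.den - a)) := by
      have e : x.den - (x.den - a) = a := by omega
      rw [e]
      exact ((Nat.coprime_sub_self_right (by omega)).2 hcop).symm
    exact ((Nat.coprime_sub_self_right (by omega : x.den - a ≤ x.den)).1 h2)
  · rw [Nat.cast_sub (by omega)]
    have : (x.den : ℚ) ≠ 0 := by positivity
    rw [eq_div_iff this, sub_mul, one_mul, Rat.mul_den_eq_num, ha]
    simp

/-- the valuations -/
lemma val_div {a c p : ℕ} (hp : p.Prime) (ha : a ≠ 0) (hc : c ≠ 0) :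
    padicValRat p ((a : ℚ) / c) = (padicValNat p a : ℤ) - padicValNat p c := by
  have : Fact p.Prime := ⟨hp⟩
  rw [padicValRat.div (by exact_mod_cast ha) (by exact_mod_cast hc), padicValRat.of_nat,
    padicValRat.of_nat]

lemma pat_of {a b c p : ℕ} (hp : p.Prime) (h : a + b = c) (ha : 1 ≤ a) (hb : 1 ≤ b)
    (h1 : a.Coprime b) (h2 : a.Coprime c) (h3 : b.Coprime c) :
    Pat (padicValRat p ((a : ℚ) / c)) (padicValRat p ((b : ℚ) / c)) := by
  rw [val_div hp (by omega) (by omega), val_div hp (by omega) (by omega)]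
  have hno : ∀ {s t : ℕ}, s.Coprime t → p ∣ s → ¬ p ∣ t := by
    intro s t hst h4 h5
    exact Nat.not_coprime_of_dvd_of_dvd hp.one_lt h4 h5 hst
  have hz : ∀ {s : ℕ}, ¬ p ∣ s → padicValNat p s = 0 := fun h => padicValNat.eq_zero_of_not_dvd h
  have : Fact p.Prime := ⟨hp⟩
  have hpos : ∀ {s : ℕ}, 1 ≤ s → p ∣ s → 1 ≤ padicValNat p s := fun h1 h2 =>
    one_le_padicValNat_of_dvd (by omega) h2
  by_cases pa : p ∣ a
  · rw [hz (hno h1 pa), hz (hno h2 pa)]
    have := hpos ha pa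
    refine Or.inr (Or.inl ⟨?_, ?_⟩) <;> omega
  · rw [hz pa]
    by_cases pb : p ∣ b
    · rw [hz (hno h3 pb)]
      have := hpos hb pb
      refine Or.inr (Or.inr (Or.inl ⟨?_, ?_⟩)) <;> omega
    · rw [hz pb]
      by_cases pc : p ∣ c
      · have := hpos (by omega) pc
        refine Or.inr (Or.inr (Or.inr ⟨?_, ?_⟩)) <;> omega
      · rw [hz pc]
        exact Or.inl ⟨by omega, by omega⟩

lemma pat {x : ℚ} (h0 : 0 < x) (h1 : x < 1 / 2) {p : ℕ} (hp : p.Prime) :
    Pat (padicValRat p x) (padicValRat p (1 - x)) := by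
  obtain ⟨a, b, c, h, ha, hab, h2, h3, h4, e1, e2⟩ := rep h0 h1
  rw [e1] at e2 ⊢
  rw [e2]
  exact pat_of hp h ha (by omega) h2 h3 h4

/-- the valuation of a monomial -/
lemma val_mon {x y : ℚ} (hx : x ≠ 0) (hy : y ≠ 0) {p : ℕ} (hp : p.Prime) (k l : ℤ) :
    padicValRat p (x ^ k * y ^ l) = k * padicValRat p x + l * padicValRat p y := by
  have : Fact p.Prime := ⟨hp⟩
  rw [padicValRat.mul (zpow_ne_zero _ hx) (zpow_ne_zero _ hy), padicValRat.zpow,
    padicValRat.zpow]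

/-- a prime at the denominator -/
lemma prime_c {x : ℚ} (h0 : 0 < x) (h1 : x < 1 / 2) : ∃ p : ℕ, p.Prime ∧ ∃ g : ℤ, 0 < g ∧
    padicValRat p x = -g ∧ padicValRat p (1 - x) = -g := by
  obtain ⟨a, b, c, h, ha, hab, h2, h3, h4, e1, e2⟩ := rep h0 h1
  obtain ⟨p, hp, hpc⟩ := Nat.exists_prime_and_dvd (n := c) (by omega)
  have : Fact p.Prime := ⟨hp⟩
  refine ⟨p, hp, padicValNat p c, ?_, ?_, ?_⟩
  · exact_mod_cast one_le_padicValNat_of_dvd (by omega) hpc
  · rw [e1, val_div hp (by omega) (by omega), padicValNat.eq_zero_of_not_dvd (n := a)]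
    · simp
    · intro h5
      exact Nat.not_coprime_of_dvd_of_dvd hp.one_lt h5 hpc h3
  · rw [e2, val_div hp (by omega) (by omega), padicValNat.eq_zero_of_not_dvd (n := b)]
    · simp
    · intro h5
      exact Nat.not_coprime_of_dvd_of_dvd hp.one_lt h5 hpc h4

/-- a prime at the numerator of `1 - x` -/
lemma prime_b {x : ℚ} (h0 : 0 < x) (h1 : x < 1 / 2) : ∃ p : ℕ, p.Prime ∧ ∃ g : ℤ, 0 < g ∧
    padicValRat p x = 0 ∧ padicValRat p (1 - x) = g := by
  obtain ⟨a, b, c, h, ha, hab, h2, h3, h4, e1, e2⟩ := rep h0 h1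
  obtain ⟨p, hp, hpb⟩ := Nat.exists_prime_and_dvd (n := b) (by omega)
  have : Fact p.Prime := ⟨hp⟩
  have hc : padicValNat p c = 0 := padicValNat.eq_zero_of_not_dvd fun h5 =>
    Nat.not_coprime_of_dvd_of_dvd hp.one_lt hpb h5 h4
  refine ⟨p, hp, padicValNat p b, ?_, ?_, ?_⟩
  · exact_mod_cast one_le_padicValNat_of_dvd (by omega) hpb
  · rw [e1, val_div hp (by omega) (by omega), padicValNat.eq_zero_of_not_dvd (n := a), hc]
    · simp
    · intro h5
      exact Nat.not_coprime_of_dvd_of_dvd hp.one_lt h5 hpb h2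
  · rw [e2, val_div hp (by omega) (by omega), hc]
    simp

/-- a prime at the numerator of `x` -/
lemma prime_a {x : ℚ} (h0 : 0 < x) (h1 : x < 1 / 2) (hn : x.num ≠ 1) : ∃ p : ℕ, p.Prime ∧
    ∃ g : ℤ, 0 < g ∧ padicValRat p x = g ∧ padicValRat p (1 - x) = 0 := by
  obtain ⟨a, b, c, h, ha, hab, h2, h3, h4, e1, e2⟩ := rep h0 h1
  have ha1 : a ≠ 1 := by
    rintro rfl
    apply hn
    rw [e1, Nat.cast_one, one_div, Rat.inv_natCast_num_of_pos (by omega)]
  obtain ⟨p, hp, hpa⟩ := Nat.exists_prime_and_dvd (n := a) ha1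
  have : Fact p.Prime := ⟨hp⟩
  have hc : padicValNat p c = 0 := padicValNat.eq_zero_of_not_dvd fun h5 =>
    Nat.not_coprime_of_dvd_of_dvd hp.one_lt hpa h5 h3
  refine ⟨p, hp, padicValNat p a, ?_, ?_, ?_⟩
  · exact_mod_cast one_le_padicValNat_of_dvd (by omega) hpa
  · rw [e1, val_div hp (by omega) (by omega), hc]
    simp
  · rw [e2, val_div hp (by omega) (by omega), padicValNat.eq_zero_of_not_dvd (n := b), hc]
    · simp
    · intro h5
      exact Nat.not_coprime_of_dvd_of_dvd hp.one_lt hpa h5 h2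

/-- multiplicative dependence of three numbers -/
def Dep (x y z : ℚ) : Prop := ∃ k l m : ℤ, (k ≠ 0 ∨ l ≠ 0 ∨ m ≠ 0) ∧ x ^ k * y ^ l * z ^ m = 1

/-- `x` and `1 - x` are multiplicatively independent -/
lemma indep {x : ℚ} (h0 : 0 < x) (h1 : x < 1 / 2) {k l : ℤ} (h : x ^ k * (1 - x) ^ l = 1) :
    k = 0 ∧ l = 0 := by
  have hx : x ≠ 0 := h0.ne'
  have hy : 1 - x ≠ 0 := by linarith
  have hval : ∀ p : ℕ, p.Prime → k * padicValRat p x + l * padicValRat p (1 - x) = 0 := by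
    intro p hp
    rw [← val_mon hx hy hp, h]
    simp
  obtain ⟨p, hp, g, hg, e1, e2⟩ := prime_b h0 h1
  obtain ⟨p', hp', g', hg', e1', e2'⟩ := prime_c h0 h1
  have h2 := hval p hp
  have h3 := hval p' hp'
  rw [e1, e2, mul_zero, zero_add] at h2
  rw [e1', e2'] at h3
  have hl : l = 0 := (mul_eq_zero.1 h2).resolve_right hg.ne'
  subst hl
  rw [zero_mul, add_zero] at h3
  exact ⟨(mul_eq_zero.1 h3).resolve_right (by omega), rfl⟩

/-- dependent numbers are roots of monomials -/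
lemma rel {x z : ℚ} (h0 : 0 < x) (h1 : x < 1 / 2) (_hz : 0 < z) (h : Dep x (1 - x) z) :
    ∃ m : ℕ, 0 < m ∧ ∃ k l : ℤ, z ^ m = x ^ k * (1 - x) ^ l := by
  obtain ⟨k, l, m, hne, he⟩ := h
  have hx : x ≠ 0 := h0.ne'
  have hy : 1 - x ≠ 0 := by linarith
  have hm : m ≠ 0 := by
    rintro rfl
    rw [zpow_zero, mul_one] at he
    obtain ⟨h2, h3⟩ := indep h0 h1 he
    simp [h2, h3] at hne
  have he' : z ^ m = x ^ (-k) * (1 - x) ^ (-l) := by
    rw [zpow_neg, zpow_neg]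
    field_simp
    linear_combination he
  have he'' : z ^ (-m) = x ^ k * (1 - x) ^ l := by
    rw [zpow_neg, he', zpow_neg, zpow_neg]
    field_simp
  rcases lt_or_gt_of_ne hm with hlt | hgt
  · refine ⟨(-m).toNat, by omega, k, l, ?_⟩
    rw [← zpow_natCast, Int.toNat_of_nonneg (by omega)]
    exact he''
  · refine ⟨m.toNat, by omega, -k, -l, ?_⟩
    rw [← zpow_natCast, Int.toNat_of_nonneg (by omega)]
    exact he'

lemma rel2 {x z z' : ℚ} (h0 : 0 < x) (h1 : x < 1 / 2) (hz : 0 < z) (hz' : 0 < z')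
    (h : Dep x (1 - x) z) (h' : Dep x (1 - x) z') : ∃ m : ℕ, 0 < m ∧
      (∃ k l : ℤ, z ^ m = x ^ k * (1 - x) ^ l) ∧ ∃ k l : ℤ, z' ^ m = x ^ k * (1 - x) ^ l := by
  obtain ⟨m, hm, k, l, e⟩ := rel h0 h1 hz h
  obtain ⟨m', hm', k', l', e'⟩ := rel h0 h1 hz' h'
  refine ⟨m * m', by positivity, ⟨k * m', l * m', ?_⟩, ⟨k' * m, l' * m, ?_⟩⟩
  · rw [pow_mul, e, mul_pow, zpow_mul, zpow_mul, zpow_natCast, zpow_natCast]
  · rw [mul_comm, pow_mul, e', mul_pow, zpow_mul, zpow_mul, zpow_natCast, zpow_natCast]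

/-- powers of both summands: the exponents are equal -/
lemma exps {x y x' y' : ℚ} (h0 : 0 < x) (h1 : 0 < y) (h0' : 0 < x') (h1' : 0 < y') (hs : x + y = 1)
    (hs' : x' + y' = 1) {m e : ℕ} (hm : 0 < m) (hx : x' ^ m = x ^ e) (hy : y' ^ m = y ^ e) :
    x' = x := by
  have hx1 : x < 1 := by linarith
  have hy1 : y < 1 := by linarith
  rcases lt_trichotomy e m with h | h | h
  · exfalso
    have h2 : x ^ m < x' ^ m := by
      rw [hx]
      exact pow_lt_pow_right_of_lt_one₀ h0 hx1 h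
    have h3 : y ^ m < y' ^ m := by
      rw [hy]
      exact pow_lt_pow_right_of_lt_one₀ h1 hy1 h
    have h4 := lt_of_pow_lt_pow_left₀ m h0'.le h2
    have h5 := lt_of_pow_lt_pow_left₀ m h1'.le h3
    linarith
  · subst h
    exact (pow_left_inj₀ h0'.le h0.le hm.ne').1 hx
  · exfalso
    have h2 : x' ^ m < x ^ m := by
      rw [hx]
      exact pow_lt_pow_right_of_lt_one₀ h0 hx1 h
    have h3 : y' ^ m < y ^ m := by
      rw [hy]
      exact pow_lt_pow_right_of_lt_one₀ h1 hy1 h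
    have h4 := lt_of_pow_lt_pow_left₀ m h0.le h2
    have h5 := lt_of_pow_lt_pow_left₀ m h1.le h3
    linarith

lemma no_neg {x z : ℚ} (h0 : 0 < x) (h1 : x < 1) (hz : 0 < z) (hz1 : z < 1) {m : ℕ} (_hm : 0 < m)
    {e : ℤ} (he : 0 < e) (h : z ^ m = x ^ (-e)) : False := by
  have h2 : z ^ m ≤ 1 := pow_le_one₀ hz.le hz1.le
  have h3 : 1 < x ^ (-e) := by
    rw [zpow_neg]
    obtain ⟨n, rfl⟩ := Int.eq_ofNat_of_zero_le he.le
    rw [zpow_natCast]
    have : x ^ n < 1 := pow_lt_one₀ h0.le h1 (by rintro rfl; simp at he)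
    exact (one_lt_inv₀ (by positivity)).2 this
  linarith

/-- the case in which no summand of the first pair is the reciprocal of an integer -/
lemma big {x x' : ℚ} (h0 : 0 < x) (h1 : x < 1 / 2) (h0' : 0 < x') (h1' : x' < 1 / 2)
    (hn : x.num ≠ 1) (hd : Dep x (1 - x) x') (hd' : Dep x (1 - x) (1 - x')) : x' = x := by
  have hx : x ≠ 0 := h0.ne'
  have hy : 1 - x ≠ 0 := by linarith
  have hx' : x' ≠ 0 := h0'.ne'
  have hy' : 1 - x' ≠ 0 := by linarith
  obtain ⟨m, hm, ⟨k, l, e⟩, k', l', e'⟩ := rel2 h0 h1 h0' (by linarith) hd hd'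
  have hval : ∀ p : ℕ, p.Prime → (m : ℤ) * padicValRat p x' =
      k * padicValRat p x + l * padicValRat p (1 - x) := by
    intro p hp
    have : Fact p.Prime := ⟨hp⟩
    rw [← val_mon hx hy hp, ← e, padicValRat.pow]
  have hval' : ∀ p : ℕ, p.Prime → (m : ℤ) * padicValRat p (1 - x') =
      k' * padicValRat p x + l' * padicValRat p (1 - x) := by
    intro p hp
    have : Fact p.Prime := ⟨hp⟩
    rw [← val_mon hx hy hp, ← e', padicValRat.pow]
  have hm' : (0 : ℤ) < m := by exact_mod_cast hm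
  have pa : Pat k k' := by
    obtain ⟨p, hp, g, hg, e1, e2⟩ := prime_a h0 h1 hn
    refine Pat.of_mul hm' hg (pat h0' h1' hp) ?_ ?_
    · rw [hval p hp, e1, e2]; ring
    · rw [hval' p hp, e1, e2]; ring
  have pb : Pat l l' := by
    obtain ⟨p, hp, g, hg, e1, e2⟩ := prime_b h0 h1
    refine Pat.of_mul hm' hg (pat h0' h1' hp) ?_ ?_
    · rw [hval p hp, e1, e2]; ring
    · rw [hval' p hp, e1, e2]; ring
  have pc : Pat (-(k + l)) (-(k' + l')) := by
    obtain ⟨p, hp, g, hg, e1, e2⟩ := prime_c h0 h1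
    refine Pat.of_mul hm' hg (pat h0' h1' hp) ?_ ?_
    · rw [hval p hp, e1, e2]; ring
    · rw [hval' p hp, e1, e2]; ring
  have hne : ¬ (k = 0 ∧ l = 0) := by
    rintro ⟨rfl, rfl⟩
    rw [zpow_zero, zpow_zero, mul_one] at e
    have : x' ^ m < 1 := pow_lt_one₀ h0'.le (by linarith) hm.ne'
    linarith
  have hcases : (0 < k ∧ l = 0 ∧ k' = 0 ∧ l' = k) ∨ (k = 0 ∧ 0 < l ∧ k' = l ∧ l' = 0) ∨
      (k' < 0 ∧ l' = 0) ∨ (k < 0 ∧ l = 0) ∨ (l' < 0 ∧ k' = 0) ∨ (l < 0 ∧ k = 0) := by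
    unfold Pat at pa pb pc
    omega
  rcases hcases with ⟨h2, h3, h4, h5⟩ | ⟨h2, h3, h4, h5⟩ | ⟨h2, h3⟩ | ⟨h2, h3⟩ | ⟨h2, h3⟩ | ⟨h2, h3⟩
  · subst h3; subst h4; subst h5
    obtain ⟨n, rfl⟩ := Int.eq_ofNat_of_zero_le h2.le
    simp only [zpow_natCast, zpow_zero, mul_one, one_mul] at e e'
    exact exps h0 (by linarith : 0 < 1 - x) h0' (by linarith : 0 < 1 - x') (by ring) (by ring) hm e e'
  · exfalso
    subst h2; subst h4; subst h5
    obtain ⟨n, rfl⟩ := Int.eq_ofNat_of_zero_le h3.le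
    simp only [zpow_natCast, zpow_zero, mul_one, one_mul] at e e'
    have := exps (by linarith : 0 < 1 - x) h0 h0' (by linarith : 0 < 1 - x') (by ring) (by ring) hm e e'
    linarith
  · exfalso
    subst h3
    rw [zpow_zero, mul_one] at e'
    exact no_neg h0 (by linarith) (by linarith : 0 < 1 - x') (by linarith) hm (e := -k') (by omega)
      (by rw [neg_neg]; exact e')
  · exfalso
    subst h3
    rw [zpow_zero, mul_one] at e
    exact no_neg h0 (by linarith) h0' (by linarith) hm (e := -k) (by omega)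
      (by rw [neg_neg]; exact e)
  · exfalso
    subst h3
    rw [zpow_zero, one_mul] at e'
    exact no_neg (by linarith : 0 < 1 - x) (by linarith) (by linarith : 0 < 1 - x') (by linarith) hm
      (e := -l') (by omega) (by rw [neg_neg]; exact e')
  · exfalso
    subst h3
    rw [zpow_zero, one_mul] at e
    exact no_neg (by linarith : 0 < 1 - x) (by linarith) h0' (by linarith) hm (e := -l) (by omega)
      (by rw [neg_neg]; exact e)

/-- common roots -/
lemma roots {a b m n : ℕ} (hm : 0 < m) (hn : 0 < n) (h : a ^ m = b ^ n) :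
    ∃ u α β : ℕ, 0 < α ∧ 0 < β ∧ a = u ^ α ∧ b = u ^ β := by
  set g := Nat.gcd m n with hg
  have hg0 : 0 < g := Nat.gcd_pos_of_pos_left _ hm
  obtain ⟨m', n', hcop, hm', hn'⟩ := Nat.exists_coprime m n
  have h' : (a ^ m') ^ g = (b ^ n') ^ g := by
    rw [← pow_mul, ← pow_mul, hg, ← hm', ← hn']
    exact h
  have h2 : a ^ m' = b ^ n' := Nat.pow_left_injective hg0.ne' h'
  obtain ⟨c, hc1, hc2⟩ := Nat.exists_eq_pow_of_exponent_coprime_of_pow_eq_pow hcop h2
  refine ⟨c, n', m', ?_, ?_, hc1, hc2⟩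
  · by_contra h0
    have : n' = 0 := by omega
    rw [this, zero_mul] at hn'
    omega
  · by_contra h0
    have : m' = 0 := by omega
    rw [this, zero_mul] at hm'
    omega

/-- consecutive integers -/
lemma cons_pow {n n' m E F : ℕ} (hn : 2 ≤ n) (hn' : 2 ≤ n') (hm : 0 < m) (hE : 0 < E) (hF : 0 < F)
    (h : (n' ^ m = n ^ E ∧ (n' + 1) ^ m = (n + 1) ^ F) ∨
      ((n' + 1) ^ m = n ^ E ∧ n' ^ m = (n + 1) ^ F)) :
    n' = n ∨ ((n = 2 ∨ n = 3 ∨ n = 8) ∧ (n' = 2 ∨ n' = 3 ∨ n' = 8)) := by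
  have hu : ∀ {u α s : ℕ}, 0 < α → 2 ≤ s → s = u ^ α → 2 ≤ u := by
    intro u α s hα hs h
    by_contra hcon
    have : u = 0 ∨ u = 1 := by omega
    rcases this with rfl | rfl
    · rw [zero_pow hα.ne'] at h; omega
    · rw [one_pow] at h; omega
  rcases h with ⟨h1, h2⟩ | ⟨h1, h2⟩
  · obtain ⟨v, w, y, hw, hy, e1, e2⟩ := roots hm hE h1
    obtain ⟨u, z, x, hz, hx, e3, e4⟩ := roots hm hF h2
    have hv2 := hu hw hn' e1
    have hu2 := hu hz (by omega) e3
    rw [e1] at e3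
    rw [e2] at e4
    rcases lt_trichotomy x z with hlt | heq | hgt
    · have := same hu2 hv2 hx hy e4.symm e3.symm hlt
      right
      omega
    · left
      subst heq
      omega
    · have := same hu2 hv2 hz hw e3.symm e4.symm hgt
      right
      omega
  · obtain ⟨u, x, z, hx, hz, e1, e2⟩ := roots hm hE h1
    obtain ⟨v, y, w, hy, hw, e3, e4⟩ := roots hm hF h2
    have hu2 := hu hx (by omega) e1
    have hv2 := hu hy hn' e3
    rw [e3] at e1
    rw [e2] at e4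
    have := mixed hu2 hv2 hx hy hz hw e1.symm e4.symm
    right
    omega

/-- reciprocals -/
lemma one_rep {x : ℚ} (_h0 : 0 < x) (h1 : x < 1 / 2) (hn : x.num = 1) :
    ∃ n : ℕ, 2 ≤ n ∧ x = 1 / ((n : ℚ) + 1) ∧ 1 - x = n / ((n : ℚ) + 1) := by
  have hx : x = 1 / x.den := by
    conv_lhs => rw [← Rat.num_div_den x, hn]
    simp
  have hden : 0 < x.den := x.den_pos
  have hlt : 2 < x.den := by
    rw [hx, div_lt_div_iff₀ (by positivity) (by norm_num)] at h1
    have : (2 : ℚ) < x.den := by linarith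
    exact_mod_cast this
  refine ⟨x.den - 1, by omega, ?_, ?_⟩
  · rw [Nat.cast_sub (by omega), Nat.cast_one, sub_add_cancel]
    exact hx
  · rw [Nat.cast_sub (by omega), Nat.cast_one, sub_add_cancel]
    rw [eq_div_iff (by positivity), sub_mul]
    conv_lhs => rw [hx]
    field_simp
    simp

/-- the case of reciprocals of integers -/
lemma small {x x' : ℚ} (h0 : 0 < x) (h1 : x < 1 / 2) (h0' : 0 < x') (h1' : x' < 1 / 2)
    (hn : x.num = 1) (hn' : x'.num = 1) (hd : Dep x (1 - x) x') (hd' : Dep x (1 - x) (1 - x')) :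
    x' = x ∨ ((x = 1 / 3 ∨ x = 1 / 4 ∨ x = 1 / 9) ∧ (x' = 1 / 3 ∨ x' = 1 / 4 ∨ x' = 1 / 9)) := by
  have hx : x ≠ 0 := h0.ne'
  have hy : 1 - x ≠ 0 := by linarith
  have hx' : x' ≠ 0 := h0'.ne'
  have hy' : 1 - x' ≠ 0 := by linarith
  obtain ⟨m, hm, ⟨k, l, e⟩, k', l', e'⟩ := rel2 h0 h1 h0' (by linarith) hd hd'
  have hval : ∀ p : ℕ, p.Prime → (m : ℤ) * padicValRat p x' =
      k * padicValRat p x + l * padicValRat p (1 - x) := by
    intro p hp
    have : Fact p.Prime := ⟨hp⟩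
    rw [← val_mon hx hy hp, ← e, padicValRat.pow]
  have hval' : ∀ p : ℕ, p.Prime → (m : ℤ) * padicValRat p (1 - x') =
      k' * padicValRat p x + l' * padicValRat p (1 - x) := by
    intro p hp
    have : Fact p.Prime := ⟨hp⟩
    rw [← val_mon hx hy hp, ← e', padicValRat.pow]
  have hm' : (0 : ℤ) < m := by exact_mod_cast hm
  obtain ⟨n, hn2, ex, ey⟩ := one_rep h0 h1 hn
  obtain ⟨n', hn2', ex', ey'⟩ := one_rep h0' h1' hn'
  have hneg : ∀ p : ℕ, p.Prime → padicValRat p x' ≤ 0 := by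
    intro p hp
    have h2 := val_div (a := 1) (c := n' + 1) hp (by norm_num) (by omega)
    rw [padicValNat_one_right] at h2
    have h3 : x' = ((1 : ℕ) : ℚ) / ((n' + 1 : ℕ) : ℚ) := by rw [ex']; push_cast; ring
    rw [h3, h2]
    omega
  have pb : Pat l l' ∧ l ≤ 0 := by
    obtain ⟨p, hp, g, hg, e1, e2⟩ := prime_b h0 h1
    have h2 := hval p hp
    rw [e1, e2] at h2
    refine ⟨Pat.of_mul hm' hg (pat h0' h1' hp) ?_ ?_, ?_⟩
    · rw [h2]; ring
    · rw [hval' p hp, e1, e2]; ring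
    · by_contra hcon
      have h3 : 0 < k * 0 + l * g := by
        have := mul_pos (not_le.1 hcon) hg
        omega
      rw [← h2] at h3
      have := mul_nonpos_of_nonneg_of_nonpos hm'.le (hneg p hp)
      omega
  have pc : Pat (-(k + l)) (-(k' + l')) ∧ -(k + l) ≤ 0 := by
    obtain ⟨p, hp, g, hg, e1, e2⟩ := prime_c h0 h1
    have h2 := hval p hp
    rw [e1, e2] at h2
    refine ⟨Pat.of_mul hm' hg (pat h0' h1' hp) ?_ ?_, ?_⟩
    · rw [h2]; ring
    · rw [hval' p hp, e1, e2]; ring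
    · by_contra hcon
      have h3 : 0 < k * -g + l * -g := by
        have := mul_pos (not_le.1 hcon) hg
        have e3 : k * -g + l * -g = -(k + l) * g := by ring
        omega
      rw [← h2] at h3
      have := mul_nonpos_of_nonneg_of_nonpos hm'.le (hneg p hp)
      omega
  -- the relations in terms of `n`, `n + 1`
  have hn0 : (n : ℚ) ≠ 0 := by positivity
  have hn1 : (n : ℚ) + 1 ≠ 0 := by positivity
  have hn0' : (n' : ℚ) ≠ 0 := by positivity
  have hn1' : (n' : ℚ) + 1 ≠ 0 := by positivity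
  have hC : ((n' : ℚ) + 1) ^ m = (n : ℚ) ^ (-l) * ((n : ℚ) + 1) ^ (k + l) := by
    rw [ey, ex, ex', div_zpow, div_zpow, one_zpow, div_pow, one_pow] at e
    rw [zpow_neg, zpow_add₀ hn1]
    field_simp at e ⊢
    linear_combination -e
  have hB : (n' : ℚ) ^ m = (n : ℚ) ^ (l' - l) * ((n : ℚ) + 1) ^ ((k + l) - (k' + l')) := by
    rw [ey', ey, ex, div_zpow, div_zpow, one_zpow, div_pow] at e'
    have e3 : (n' : ℚ) ^ m = (n' : ℚ) ^ m / ((n' : ℚ) + 1) ^ m * ((n' : ℚ) + 1) ^ m := by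
      field_simp
    rw [e3, e', hC, zpow_sub₀ hn0, zpow_sub₀ hn1, zpow_neg, zpow_add₀ hn1, zpow_add₀ hn1]
    field_simp
  have hC1 : (1 : ℚ) < ((n' : ℚ) + 1) ^ m := one_lt_pow₀ (by
    have : (2 : ℚ) ≤ n' := by exact_mod_cast hn2'
    linarith) hm.ne'
  have hB1 : (1 : ℚ) < (n' : ℚ) ^ m := one_lt_pow₀ (by
    have : (2 : ℚ) ≤ n' := by exact_mod_cast hn2'
    linarith) hm.ne'
  have hne1 : ¬ (l = 0 ∧ k + l = 0) := by
    rintro ⟨h2, h3⟩
    rw [h2, add_zero] at h3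
    rw [hC, h2, h3] at hC1
    simp at hC1
  have hne2 : ¬ (l' - l = 0 ∧ (k + l) - (k' + l') = 0) := by
    rintro ⟨h2, h3⟩
    rw [hB, h2, h3] at hB1
    simp at hB1
  have hcases : (l = 0 ∧ 0 < l' ∧ 0 < k + l ∧ k + l = k' + l') ∨
      (l < 0 ∧ l' = l ∧ k + l = 0 ∧ 0 < -(k' + l')) := by
    obtain ⟨pb, pb'⟩ := pb
    obtain ⟨pc, pc'⟩ := pc
    unfold Pat at pb pc
    omega
  have hfin : n' = n ∨ ((n = 2 ∨ n = 3 ∨ n = 8) ∧ (n' = 2 ∨ n' = 3 ∨ n' = 8)) := by
    rcases hcases with ⟨h2, h3, h4, h5⟩ | ⟨h2, h3, h4, h5⟩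
    · obtain ⟨F, hF⟩ := Int.eq_ofNat_of_zero_le h4.le
      obtain ⟨E, hE⟩ := Int.eq_ofNat_of_zero_le h3.le
      rw [← h5, sub_self, h2, sub_zero, hE, zpow_zero, mul_one, zpow_natCast] at hB
      rw [hF, h2, neg_zero, zpow_zero, one_mul, zpow_natCast] at hC
      refine cons_pow hn2 hn2' hm (E := E) (F := F) (by omega) (by omega) (Or.inl ⟨?_, ?_⟩)
      · exact_mod_cast hB
      · exact_mod_cast hC
    · obtain ⟨F, hF⟩ := Int.eq_ofNat_of_zero_le h5.le
      obtain ⟨E, hE⟩ := Int.eq_ofNat_of_zero_le (show 0 ≤ -l by omega)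
      have e4 : (k + l) - (k' + l) = F := by omega
      rw [h3, sub_self, zpow_zero, one_mul, e4, zpow_natCast] at hB
      rw [h4, hE, zpow_zero, mul_one, zpow_natCast] at hC
      refine cons_pow hn2 hn2' hm (E := E) (F := F) (by omega) (by omega) (Or.inr ⟨?_, ?_⟩)
      · exact_mod_cast hC
      · exact_mod_cast hB
  rcases hfin with h2 | ⟨h2, h3⟩
  · left
    rw [ex, ex', h2]
  · right
    constructor
    · rw [ex]
      rcases h2 with rfl | rfl | rfl <;> norm_num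
    · rw [ex']
      rcases h3 with rfl | rfl | rfl <;> norm_num

/-- **Additive pairs in groups of rank two.** -/
theorem core {x x' : ℚ} (h0 : 0 < x) (h1 : x < 1 / 2) (h0' : 0 < x') (h1' : x' < 1 / 2)
    (hd : Dep x (1 - x) x') (hd' : Dep x (1 - x) (1 - x')) (hd1 : Dep x' (1 - x') x)
    (hd1' : Dep x' (1 - x') (1 - x)) :
    x' = x ∨ ((x = 1 / 3 ∨ x = 1 / 4 ∨ x = 1 / 9) ∧ (x' = 1 / 3 ∨ x' = 1 / 4 ∨ x' = 1 / 9)) := by
  by_cases hn : x.num = 1
  · by_cases hn' : x'.num = 1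
    · exact small h0 h1 h0' h1' hn hn' hd hd'
    · left
      exact (big h0' h1' h0 h1 hn' hd1 hd1').symm
  · left
    exact big h0 h1 h0' h1' hn hd hd'

end Pool.Agent.TH293.AP
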