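import Mathlib

set_option autoImplicit false

/-!
# Consecutive powers: `u ^ x - v ^ y = 1` (elementary)
-/

namespace Pool.Agent.TH293.AP

/-- `v^y + 1 ∣ v^w + 1` forces `w` to be an odd multiple of `y`. -/
lemma dvd_odd {v y w : ℕ} (hv : 2 ≤ v) (hy : 1 ≤ y) (h : v ^ y + 1 ∣ v ^ w + 1) :
    ∃ l, Odd l ∧ w = y * l := by
  have hw : w = y * (w / y) + w % y := (Nat.div_add_mod w y).symm
  set q := w / y with hq
  set r := w % y with hr
  have hry : r < y := Nat.mod_lt _ (by omega)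
  have hvr : v ^ r < v ^ y := Nat.pow_lt_pow_right (by omega) hry
  have hZ : ((v : ℤ) ^ y + 1) ∣ (v : ℤ) ^ w + 1 := by exact_mod_cast h
  have h1 : ((v : ℤ) ^ y + 1) ∣ ((v : ℤ) ^ y) ^ q - (-1) ^ q := by
    have := sub_dvd_pow_sub_pow ((v : ℤ) ^ y) (-1) q
    simpa using this
  have h2 : ((v : ℤ) ^ y + 1) ∣ (-1) ^ q * (v : ℤ) ^ r + 1 := by
    have h3 : (v : ℤ) ^ w + 1 - (((v : ℤ) ^ y) ^ q - (-1) ^ q) * (v : ℤ) ^ r =
        (-1) ^ q * (v : ℤ) ^ r + 1 := by
      have h4 : (v : ℤ) ^ w = ((v : ℤ) ^ y) ^ q * (v : ℤ) ^ r := by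
        rw [← pow_mul, ← pow_add, ← hw]
      rw [h4]
      ring
    rw [← h3]
    exact dvd_sub hZ (h1.mul_right _)
  rcases Nat.even_or_odd q with hqe | hqo
  · exfalso
    rw [hqe.neg_one_pow, one_mul] at h2
    have h3 : v ^ y + 1 ∣ v ^ r + 1 := by exact_mod_cast h2
    have := Nat.le_of_dvd (by positivity) h3
    omega
  · rw [hqo.neg_one_pow] at h2
    have h3 : ((v : ℤ) ^ y + 1) ∣ (v : ℤ) ^ r - 1 := by
      have := h2.neg_right
      have e : -(-1 * (v : ℤ) ^ r + 1) = (v : ℤ) ^ r - 1 := by ring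
      rwa [e] at this
    have h4 : (v : ℤ) ^ r - 1 = 0 := by
      by_contra hne
      have h5 : 1 ≤ v ^ r := Nat.one_le_pow _ _ (by omega)
      have h6 : (0 : ℤ) < (v : ℤ) ^ r - 1 := by
        have : (1 : ℤ) ≤ (v : ℤ) ^ r := by exact_mod_cast h5
        omega
      have h7 := Int.le_of_dvd h6 h3
      have h8 : (v : ℤ) ^ r < (v : ℤ) ^ y := by exact_mod_cast hvr
      omega
    have h5 : v ^ r = 1 := by
      have : (v : ℤ) ^ r = 1 := by linarith
      exact_mod_cast this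
    have h6 : r = 0 := by
      by_contra hr0
      have := Nat.one_lt_pow hr0 (by omega : 1 < v)
      omega
    exact ⟨q, hqo, by omega⟩

/-- `(B + 1)^k = B^l + 1`. -/
lemma base {B k l : ℕ} (hB : 2 ≤ B) (hk : 2 ≤ k) (hl : Odd l)
    (h : (B + 1) ^ k = B ^ l + 1) : B = 2 ∧ k = 2 ∧ l = 3 := by
  have hl0 : l ≠ 0 := by rintro rfl; simp at hl
  -- valuations at the primes dividing `B + 1`
  have hval : ∀ q : ℕ, q.Prime → q ∣ B + 1 → (k - 1) * padicValNat q (B + 1) ≤ padicValNat q l := by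
    intro q hq hdvd
    have : Fact q.Prime := ⟨hq⟩
    have hvp : 1 ≤ padicValNat q (B + 1) := one_le_padicValNat_of_dvd (by omega) hdvd
    have hqB : ¬ q ∣ B := by
      intro hqB
      have := (Nat.dvd_add_right hqB).1 hdvd
      exact hq.one_lt.ne' (Nat.dvd_one.1 this)
    have hpw : padicValNat q ((B + 1) ^ k) = k * padicValNat q (B + 1) := padicValNat.pow _ _
    rcases hq.eq_two_or_odd' with rfl | hodd
    · -- `q = 2`
      exfalso
      have hBo : Odd B := by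
        rcases Nat.even_or_odd B with he | ho
        · exact absurd he.two_dvd hqB
        · exact ho
      -- `B^l + 1 = (B+1) * (odd)`
      have h4 : 4 ∣ (B + 1) ^ k := by
        have : 2 ^ 2 ∣ (B + 1) ^ k := (pow_dvd_pow 2 hk).trans (pow_dvd_pow_of_dvd hdvd k)
        simpa using this
      have h5 : padicValNat 2 (B ^ l + 1) = padicValNat 2 (B + 1) := by
        obtain ⟨s, hs⟩ := hl
        have h6 : ((B : ℤ) + 1) ∣ (B : ℤ) ^ l + 1 := by
          have := (Odd.add_dvd_pow_add_pow (B : ℤ) 1 (n := l) ⟨s, hs⟩)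
          simpa using this
        obtain ⟨c, hc⟩ := h6
        -- modulo `2 (B+1)`
        have h7 : Odd c := by
          -- `B^l + 1 ≡ B + 1 mod 2(B+1)` since `B^2 ≡ 1 mod 2(B+1)`
          have h8 : (2 * ((B : ℤ) + 1)) ∣ (B : ℤ) ^ 2 - 1 := by
            obtain ⟨b, hb⟩ := hBo
            refine ⟨b, ?_⟩
            have : (B : ℤ) = 2 * b + 1 := by exact_mod_cast hb
            rw [this]; ring
          have h9 : (2 * ((B : ℤ) + 1)) ∣ (B : ℤ) ^ l - B := by
            have h10 : (B : ℤ) ^ 2 - 1 ∣ ((B : ℤ) ^ 2) ^ s - 1 ^ s := sub_dvd_pow_sub_pow _ _ _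
            rw [one_pow] at h10
            have h11 : (B : ℤ) ^ l - B = B * (((B : ℤ) ^ 2) ^ s - 1) := by
              rw [hs, ← pow_mul, pow_succ]
              ring
            rw [h11]
            exact (h8.trans h10).mul_left _
          obtain ⟨d, hd⟩ := h9
          have h12 : ((B : ℤ) + 1) * c = ((B : ℤ) + 1) * (2 * d + 1) := by
            rw [← hc]
            linear_combination hd
          have h13 : (B : ℤ) + 1 ≠ 0 := by positivity
          have h14 := mul_left_cancel₀ h13 h12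
          exact ⟨d, h14⟩
        obtain ⟨e, he⟩ : ∃ e : ℕ, c = (e : ℤ) := by
          have h8 : 0 ≤ c := by
            have h9 : 0 < (B : ℤ) ^ l + 1 := by positivity
            have h10 : (0 : ℤ) < (B : ℤ) + 1 := by positivity
            rw [hc] at h9
            by_contra hc0
            have := mul_nonpos_of_nonneg_of_nonpos h10.le (not_le.1 hc0).le
            linarith
          exact ⟨c.toNat, (Int.toNat_of_nonneg h8).symm⟩
        have h8 : B ^ l + 1 = (B + 1) * e := by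
          have : ((B : ℤ) ^ l + 1) = ((B : ℤ) + 1) * e := by rw [hc, he]
          exact_mod_cast this
        have h9 : Odd e := by
          rw [he] at h7
          exact_mod_cast h7
        rw [h8, padicValNat.mul (by omega) (by rintro rfl; simp at h9)]
        have h10 : padicValNat 2 e = 0 := by
          apply padicValNat.eq_zero_of_not_dvd
          intro h11
          exact (Nat.not_even_iff_odd.2 h9) (even_iff_two_dvd.2 h11)
        omega
      rw [← h, hpw] at h5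
      nlinarith
    · have hlte : padicValNat q (B ^ l + 1 ^ l) = padicValNat q (B + 1) + padicValNat q l :=
        padicValNat.pow_add_pow hodd hdvd hqB hl
      rw [one_pow, ← h, hpw] at hlte
      have : k * padicValNat q (B + 1) = (k - 1) * padicValNat q (B + 1) + padicValNat q (B + 1) := by
        obtain ⟨k', rfl⟩ : ∃ k', k = k' + 1 := ⟨k - 1, by omega⟩
        simp only [Nat.add_sub_cancel]
        ring
      omega
  -- hence `(B+1)^(k-1) ∣ l`
  have hdl : (B + 1) ^ (k - 1) ∣ l := by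
    rw [← Nat.factorization_prime_le_iff_dvd (by positivity) hl0]
    intro q hq
    rw [Nat.factorization_pow, Finsupp.smul_apply, smul_eq_mul, Nat.factorization_def _ hq,
      Nat.factorization_def _ hq]
    by_cases hd : q ∣ B + 1
    · exact hval q hq hd
    · rw [padicValNat.eq_zero_of_not_dvd hd, mul_zero]
      exact Nat.zero_le _
  have hle := Nat.le_of_dvd (Nat.pos_of_ne_zero hl0) hdl
  obtain ⟨k', rfl⟩ : ∃ k', k = k' + 2 := ⟨k - 2, by omega⟩
  have e1 : k' + 2 - 1 = k' + 1 := by omega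
  rw [e1] at hle
  set N := (B + 1) ^ (k' + 1) with hN
  have hAN : B + 1 ≤ N := by
    rw [hN, pow_succ]
    exact Nat.le_mul_of_pos_left _ (by positivity)
  have hsq : (B + 1) ^ (k' + 2) ≤ N ^ 2 := by
    have : (B + 1) ^ (k' + 2) = N * (B + 1) := by rw [hN]; ring
    rw [this, sq]
    exact Nat.mul_le_mul_left _ hAN
  have h2N : 2 ^ N ≤ B ^ l :=
    (Nat.pow_le_pow_left hB N).trans (Nat.pow_le_pow_right (by omega) hle)
  by_cases hN4 : 4 ≤ N
  · exfalso
    have hexp : ∀ N : ℕ, 4 ≤ N → N ^ 2 ≤ 2 ^ N := by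
      intro N hN
      induction N, hN using Nat.le_induction with
      | base => norm_num
      | succ N hN ih =>
        rw [pow_succ 2 N]
        nlinarith
    have := hexp N hN4
    omega
  · have hB2 : B = 2 := by omega
    subst hB2
    have hk' : k' = 0 := by
      by_contra hne
      have : 3 ^ 2 ≤ (2 + 1) ^ (k' + 1) := Nat.pow_le_pow_right (by norm_num) (by omega)
      omega
    subst hk'
    refine ⟨rfl, rfl, ?_⟩
    have h3 : 2 ^ l = 2 ^ 3 := by
      have : (2 + 1) ^ (0 + 2) = 9 := by norm_num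
      omega
    exact Nat.pow_right_injective (le_refl 2) h3

/-- same sign -/
lemma same {u v x y z w : ℕ} (hu : 2 ≤ u) (hv : 2 ≤ v) (_hx : 1 ≤ x) (hy : 1 ≤ y)
    (h1 : u ^ x = v ^ y + 1) (h2 : u ^ z = v ^ w + 1) (hxz : x < z) :
    u ^ x = 3 ∧ v ^ y = 2 ∧ u ^ z = 9 ∧ v ^ w = 8 := by
  have huxz : u ^ x < u ^ z := Nat.pow_lt_pow_right (by omega) hxz
  have hyw : y < w := by
    by_contra hcon
    have := Nat.pow_le_pow_right (by omega : 0 < v) (not_lt.1 hcon)
    omega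
  -- `x ∣ z`
  have hxz' : x ∣ z := by
    have h3 : u ^ x - 1 ∣ u ^ z - 1 := by
      have e1 : u ^ x - 1 = v ^ y := by omega
      have e2 : u ^ z - 1 = v ^ w := by omega
      rw [e1, e2]
      exact pow_dvd_pow v hyw.le
    have h4 := Nat.pow_sub_one_gcd_pow_sub_one u x z
    rw [Nat.gcd_eq_left h3] at h4
    have h5 : 1 ≤ u ^ x := Nat.one_le_pow _ _ (by omega)
    have h6 : 1 ≤ u ^ Nat.gcd x z := Nat.one_le_pow _ _ (by omega)
    have h7 : u ^ x = u ^ Nat.gcd x z := by omega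
    have h8 : x = Nat.gcd x z := Nat.pow_right_injective hu h7
    rw [h8]
    exact Nat.gcd_dvd_right _ _
  obtain ⟨k, rfl⟩ := hxz'
  have hk : 2 ≤ k := by
    by_contra hcon
    have : k = 0 ∨ k = 1 := by omega
    rcases this with rfl | rfl <;> simp at hxz
  have hdv : v ^ y + 1 ∣ v ^ w + 1 := by
    rw [← h1, ← h2]
    exact pow_dvd_pow u hxz.le
  obtain ⟨l, hl, rfl⟩ := dvd_odd hv hy hdv
  have hB : 2 ≤ v ^ y := by
    calc 2 ≤ v := hv
      _ = v ^ 1 := (pow_one v).symm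
      _ ≤ v ^ y := Nat.pow_le_pow_right (by omega) hy
  have h3 : (v ^ y + 1) ^ k = (v ^ y) ^ l + 1 := by
    rw [← h1, ← pow_mul, ← pow_mul, h2]
  obtain ⟨e1, e2, e3⟩ := base hB hk hl h3
  rw [pow_mul u x k, pow_mul v y l, h1, e1, e2, e3]
  norm_num

/-- `v^w - 1 ∣ v^y + 1` -/
lemma dvd_sub_one {v y w : ℕ} (hv : 2 ≤ v) (hw : 1 ≤ w) (h : v ^ w - 1 ∣ v ^ y + 1) :
    (v = 2 ∧ w = 1) ∨ (v = 2 ∧ w = 2) ∨ (v = 3 ∧ w = 1) := by
  have hy : y = w * (y / w) + y % w := (Nat.div_add_mod y w).symm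
  set q := y / w
  set r := y % w with hr
  have hrw : r < w := Nat.mod_lt _ (by omega)
  have hvw : 1 ≤ v ^ w := Nat.one_le_pow _ _ (by omega)
  have hZ : ((v : ℤ) ^ w - 1) ∣ (v : ℤ) ^ y + 1 := by
    have h1 : ((v ^ w - 1 : ℕ) : ℤ) = (v : ℤ) ^ w - 1 := by
      rw [Nat.cast_sub hvw]; push_cast; ring
    have h2 : ((v ^ w - 1 : ℕ) : ℤ) ∣ ((v ^ y + 1 : ℕ) : ℤ) := Int.natCast_dvd_natCast.2 h
    rw [h1] at h2
    exact_mod_cast h2
  have h1 : ((v : ℤ) ^ w - 1) ∣ ((v : ℤ) ^ w) ^ q - 1 ^ q := sub_dvd_pow_sub_pow _ _ _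
  rw [one_pow] at h1
  have h2 : ((v : ℤ) ^ w - 1) ∣ (v : ℤ) ^ r + 1 := by
    have h3 : (v : ℤ) ^ y + 1 - (((v : ℤ) ^ w) ^ q - 1) * (v : ℤ) ^ r = (v : ℤ) ^ r + 1 := by
      have h4 : (v : ℤ) ^ y = ((v : ℤ) ^ w) ^ q * (v : ℤ) ^ r := by
        rw [← pow_mul, ← pow_add, ← hy]
      rw [h4]
      ring
    rw [← h3]
    exact dvd_sub hZ (h1.mul_right _)
  have h3 := Int.le_of_dvd (by positivity) h2
  have h4 : v ^ w ≤ v ^ r + 2 := by
    have : (v : ℤ) ^ w ≤ (v : ℤ) ^ r + 2 := by linarith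
    exact_mod_cast this
  have h5 : v * v ^ r ≤ v ^ w := by
    rw [← pow_succ']
    exact Nat.pow_le_pow_right (by omega) hrw
  have h6 : 1 ≤ v ^ r := Nat.one_le_pow _ _ (by omega)
  by_cases hr0 : r = 0
  · rw [hr0, pow_zero] at h4
    by_cases hw1 : w = 1
    · rw [hw1, pow_one] at h4
      have : v = 2 ∨ v = 3 := by omega
      rcases this with h | h
      · exact Or.inl ⟨h, hw1⟩
      · exact Or.inr (Or.inr ⟨h, hw1⟩)
    · exfalso
      have h7 : v ^ 2 ≤ v ^ w := Nat.pow_le_pow_right (by omega) (by omega)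
      nlinarith
  · have h7 : v ≤ v ^ r := by
      calc v = v ^ 1 := (pow_one v).symm
        _ ≤ v ^ r := Nat.pow_le_pow_right (by omega) (by omega)
    have h8 : v = 2 := by nlinarith
    subst h8
    have h9 : 2 ^ r ≤ 2 := by omega
    have hr1 : r = 1 := by
      by_contra hne
      have : 2 ^ 2 ≤ 2 ^ r := Nat.pow_le_pow_right (by norm_num) (by omega)
      omega
    rw [hr1] at h4
    have hw2 : w = 2 := by
      by_contra hne
      have : 2 ^ 3 ≤ 2 ^ w := Nat.pow_le_pow_right (by norm_num) (by omega)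
      omega
    exact Or.inr (Or.inl ⟨rfl, hw2⟩)

/-- mixed signs, one case -/
lemma mixed_aux {u v x y z w : ℕ} (hv : 2 ≤ v) (hz : 1 ≤ z) (hu : 2 ≤ u) (hw : 1 ≤ w)
    (h1 : u ^ x = v ^ y + 1) (h2 : v ^ w = u ^ z + 1) (hzx : z ≤ x) :
    (v = 2 ∧ u = 3 ∧ z = 1 ∧ w = 2) ∨ (v = 3 ∧ u = 2 ∧ z = 1 ∧ w = 1) := by
  have h3 : v ^ w - 1 ∣ v ^ y + 1 := by
    have e : v ^ w - 1 = u ^ z := by omega
    rw [e, ← h1]
    exact pow_dvd_pow u hzx
  have hpow : ∀ m : ℕ, m.Prime → u ^ z = m → u = m ∧ z = 1 := by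
    intro m hm h
    have hz1 : z = 1 := Nat.Prime.eq_one_of_pow (x := u) (n := z) (h ▸ hm)
    rw [hz1, pow_one] at h
    exact ⟨h, hz1⟩
  rcases dvd_sub_one hv hw h3 with ⟨rfl, rfl⟩ | ⟨rfl, rfl⟩ | ⟨rfl, rfl⟩
  · exfalso
    have h4 : u ^ z = 1 := by omega
    have h5 : u ≤ u ^ z := by
      calc u = u ^ 1 := (pow_one u).symm
        _ ≤ u ^ z := Nat.pow_le_pow_right (by omega) hz
    omega
  · obtain ⟨h4, h5⟩ := hpow 3 Nat.prime_three (by omega)
    exact Or.inl ⟨rfl, h4, h5, rfl⟩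
  · obtain ⟨h4, h5⟩ := hpow 2 Nat.prime_two (by omega)
    exact Or.inr ⟨rfl, h4, h5, rfl⟩

/-- solutions of `3^x = 2^y + 1` -/
lemma three_two {x y : ℕ} (hx : 1 ≤ x) (h : 3 ^ x = 2 ^ y + 1) : 2 ^ y = 2 ∨ 2 ^ y = 8 := by
  rcases Nat.lt_or_ge 1 x with hlt | hge
  · have := same (u := 3) (v := 2) (x := 1) (y := 1) (by norm_num) (by norm_num) le_rfl le_rfl
      (by norm_num) h hlt
    exact Or.inr this.2.2.2
  · have : x = 1 := by omega
    subst this
    left
    omega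

/-- solutions of `2^x = 3^y + 1` -/
lemma two_three {x y : ℕ} (hy : 1 ≤ y) (h : 2 ^ x = 3 ^ y + 1) : 3 ^ y = 3 := by
  rcases Nat.lt_or_ge 2 x with hlt | hge
  · have := same (u := 2) (v := 3) (x := 2) (y := 1) (by norm_num) (by norm_num) (by norm_num) le_rfl
      (by norm_num) h hlt
    omega
  · have h3 : 3 ≤ 3 ^ y := by
      calc 3 = 3 ^ 1 := (pow_one 3).symm
        _ ≤ 3 ^ y := Nat.pow_le_pow_right (by omega) hy
    have h4 : 2 ^ x ≤ 2 ^ 2 := Nat.pow_le_pow_right (by norm_num) hge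
    omega

/-- mixed signs -/
lemma mixed {u v x y z w : ℕ} (hu : 2 ≤ u) (hv : 2 ≤ v) (hx : 1 ≤ x) (hy : 1 ≤ y) (hz : 1 ≤ z)
    (hw : 1 ≤ w) (h1 : u ^ x = v ^ y + 1) (h2 : v ^ w = u ^ z + 1) :
    (v ^ y = 2 ∨ v ^ y = 3 ∨ v ^ y = 8) ∧ (u ^ z = 2 ∨ u ^ z = 3 ∨ u ^ z = 8) := by
  rcases le_or_gt z x with hzx | hxz
  · rcases mixed_aux hv hz hu hw h1 h2 hzx with ⟨rfl, rfl, rfl, rfl⟩ | ⟨rfl, rfl, rfl, rfl⟩
    · have := three_two hx h1
      refine ⟨?_, by norm_num⟩
      rcases this with h | h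
      · exact Or.inl h
      · exact Or.inr (Or.inr h)
    · have := two_three hy h1
      exact ⟨Or.inr (Or.inl this), by norm_num⟩
  · rcases le_or_gt y w with hyw | hwy
    · rcases mixed_aux hu hy hv hx h2 h1 hyw with ⟨rfl, rfl, rfl, rfl⟩ | ⟨rfl, rfl, rfl, rfl⟩
      · have := three_two hw h2
        refine ⟨by norm_num, ?_⟩
        rcases this with h | h
        · exact Or.inl h
        · exact Or.inr (Or.inr h)
      · have := two_three hz h2
        exact ⟨by norm_num, Or.inr (Or.inl this)⟩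
    · exfalso
      have h3 : v ^ w < v ^ y := Nat.pow_lt_pow_right (by omega) hwy
      have h4 : u ^ x < u ^ z := Nat.pow_lt_pow_right (by omega) hxz
      omega

end Pool.Agent.TH293.AP
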